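import Pool.Agent.Helper83.TW.Goals2

/-! The generating function is periodic. -/

set_option autoImplicit false

namespace Pool.Agent.Helper27.TW

open Complex Set
open Pool.Agent.Helper83.TW

theorem gC0 (hCal : GCal) (hOsc : GOsc) : GC0 := by
  intro P Q ρ η hNI ι U hL y g c0 hG
  have hρ := hNI.hρ0
  have hη := hNI.hη
  have hη0 := hNI.hη0
  have hρ1 := hNI.hρ1
  have memDG : ∀ x d : ℝ, 1/4 < d → d < 11/4 → ((x : ℂ), (d : ℂ)) ∈ DG (ρ/2) := by
    intro x d h1 h2
    refine ⟨?_, ?_, ?_, ?_⟩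
    · simp [hρ]
    · simpa using h1
    · simpa using h2
    · simp [hρ]
  have real_g : ∀ x d : ℝ, 1/4 < d → d < 11/4 → (g ((x : ℂ), (d : ℂ))).im = 0 := by
    intro x d h1 h2
    have h := hG.gs _ (memDG x d h1 h2)
    simp only [Complex.conj_ofReal] at h
    exact Complex.conj_eq_iff_im.1 h.symm
  have him : c0.im = 0 := by
    have h1 := hG.gp _ (memDG 0 1 (by norm_num) (by norm_num))
    have h2 := real_g 0 1 (by norm_num) (by norm_num)
    have h3 := real_g 1 1 (by norm_num) (by norm_num)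
    have h4 : (g ((((0:ℝ) : ℂ) + 1), ((1:ℝ) : ℂ))).im = (g (((0:ℝ) : ℂ), ((1:ℝ) : ℂ))).im
        + c0.im := by
      have := congrArg Complex.im h1
      simpa using this
    have e : (((0:ℝ) : ℂ) + 1) = ((1:ℝ) : ℂ) := by simp
    rw [e, h3, h2] at h4
    linarith
  obtain ⟨i, hi⟩ := hL.cover 0 (3/2) (by norm_num) (by norm_num)
  obtain ⟨o1, _, _, o4, _⟩ := hOsc P Q ρ η hNI ι U hL
  have hUb : ∀ x, 2/5 < U i x ∧ U i x < 13/5 := by
    intro x
    have h := o1 i x 0
    rw [hi, abs_le] at h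
    constructor <;> linarith [h.1, h.2]
  obtain ⟨φ, _, h2⟩ := hCal P Q ρ η hNI ι U hL y g c0 hG i hUb
  have hmemW : (((0:ℝ) : ℂ), ((U i 0 : ℝ) : ℂ)) ∈ WG ρ := by
    rw [hi]
    refine ⟨?_, ?_, ?_, ?_⟩
    · simp [hρ]
    · simp only [Complex.ofReal_re]; norm_num
    · simp only [Complex.ofReal_re]; norm_num
    · simp only [Complex.ofReal_im, abs_zero]; exact hρ
  have hPb := hNI.bP _ hmemW
  have hPre : |(P (((0:ℝ) : ℂ), ((U i 0 : ℝ) : ℂ))).re| ≤ η :=
    (Complex.abs_re_le_norm _).trans hPb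
  set d : ℝ := (Gm P Q 0 (U i 0)).1 with hd
  have hd' : d = 0 + U i 0 + (P (((0:ℝ) : ℂ), ((U i 0 : ℝ) : ℂ))).re := rfl
  have hηs : η ≤ 1/100 := by
    have : (10:ℝ)^6 * η ≤ 1/4 := hη.trans hρ1
    norm_num at this
    linarith
  have hd1 : 1/4 < d := by
    rw [hd', hi]
    rw [hi] at hPre
    have := (abs_le.1 hPre).1
    linarith
  have hd2 : d < 11/4 := by
    rw [hd', hi]
    rw [hi] at hPre
    have := (abs_le.1 hPre).2
    linarith
  have k0 := h2 0
  have k1 := h2 1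
  have hg1 : (Gm P Q 1 (U i 1)).1 = d + 1 := by
    have := o4 i 0
    rw [zero_add] at this
    exact this
  rw [hg1] at k1
  have hint : ∫ t in (1:ℝ)..(d + 1), U i t = ∫ t in (0:ℝ)..d, U i t := by
    have e := intervalIntegral.integral_comp_add_right (a := 0) (b := d) (U i) 1
    rw [zero_add] at e
    rw [← e]
    refine intervalIntegral.integral_congr fun t _ => ?_
    exact hL.per i t
  rw [hint] at k1
  rw [← hd] at k0
  have e1 : d + 1 - 1 = d := by ring
  rw [e1] at k1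
  rw [sub_zero] at k0
  have h1 := hG.gp _ (memDG 0 d hd1 hd2)
  have e0 : (((0:ℝ) : ℂ) + 1) = ((1:ℝ) : ℂ) := by simp
  have hell : (ell g ((1:ℝ) : ℂ) (d : ℂ)).re = (ell g ((0:ℝ) : ℂ) (d : ℂ)).re + c0.re := by
    unfold ell
    have h1' : g (((1:ℝ) : ℂ), (d : ℂ)) = g (((0:ℝ) : ℂ), (d : ℂ)) + c0 := by
      rw [← e0]; exact h1
    rw [h1']
    simp only [Complex.add_re]
    ring
  have hre : c0.re = 0 := by
    rw [hell] at k1
    linarith
  exact Complex.ext hre him

end Pool.Agent.Helper27.TW
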