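import Pool.Agent.Helper83.TW.Goals1

/-! Partial derivatives of a holomorphic function of two complex variables. -/

set_option autoImplicit false

namespace Pool.Agent.Helper27.TW

open Complex Set Filter Topology
open Pool.Agent.Helper83.TW

/-- Cauchy estimate on nested balls -/
lemma deriv_bound {g : ℂ → ℂ} {c : ℂ} {r1 r2 M : ℝ} (h12 : r1 < r2)
    (hg : DifferentiableOn ℂ g (Metric.ball c r2)) (hM : ∀ z ∈ Metric.ball c r2, ‖g z‖ ≤ M) :
    ∀ z ∈ Metric.ball c r1, ‖deriv g z‖ ≤ M / ((r2 - r1) / 2) := by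
  intro z hz
  have hpos : 0 < (r2 - r1) / 2 := by linarith
  have hsub : Metric.closedBall z ((r2 - r1) / 2) ⊆ Metric.ball c r2 := by
    intro y hy
    rw [Metric.mem_closedBall] at hy
    rw [Metric.mem_ball] at hz ⊢
    have := dist_triangle y z c
    linarith
  refine Complex.norm_deriv_le_of_forall_mem_sphere_norm_le hpos ?_ ?_
  · refine DifferentiableOn.diffContOnCl ?_
    rw [closure_ball z hpos.ne']
    exact hg.mono hsub
  · intro y hy
    exact hM y (hsub (Metric.sphere_subset_closedBall hy))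

/-- difference quotients converge uniformly -/
lemma quot_bound {g : ℂ → ℂ} {c : ℂ} {R M : ℝ} (hR : 0 < R)
    (hg : DifferentiableOn ℂ g (Metric.ball c (3 * R)))
    (hM : ∀ z ∈ Metric.ball c (3 * R), ‖g z‖ ≤ M) :
    ∀ z ∈ Metric.ball c (R / 2), ∀ h : ℂ, ‖h‖ < R / 2 →
      ‖g (z + h) - g z - deriv g z * h‖ ≤ (4 * M / R ^ 2) * ‖h‖ ^ 2 := by
  have h1 := deriv_bound (r1 := 2 * R) (r2 := 3 * R) (by linarith) hg hM
  have hg1 : DifferentiableOn ℂ (deriv g) (Metric.ball c (2 * R)) :=
    (hg.deriv Metric.isOpen_ball).mono (Metric.ball_subset_ball (by linarith))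
  have h2 := deriv_bound (r1 := R) (r2 := 2 * R) (by linarith) hg1 h1
  have hc : M / ((3 * R - 2 * R) / 2) / ((2 * R - R) / 2) = 4 * M / R ^ 2 := by
    field_simp
    ring
  rw [hc] at h2
  intro z hz h hh
  have hconv : Convex ℝ (Metric.ball c R) := convex_ball c R
  have hzR : z ∈ Metric.ball c R := Metric.ball_subset_ball (by linarith) hz
  -- first order bound on the derivative
  have hb1 : ∀ y ∈ Metric.ball c R, ‖deriv g y - deriv g z‖ ≤ (4 * M / R ^ 2) * ‖y - z‖ := by
    intro y hy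
    refine hconv.norm_image_sub_le_of_norm_deriv_le (𝕜 := ℂ) (f := deriv g) ?_ h2 hzR hy
    intro x hx
    exact hg1.differentiableAt (Metric.isOpen_ball.mem_nhds
      (Metric.ball_subset_ball (by linarith) hx))
  -- now the function itself, on the segment
  set S : Set ℂ := Metric.closedBall z ‖h‖ with hS
  have hSsub : S ⊆ Metric.ball c R := by
    intro y hy
    rw [hS, Metric.mem_closedBall] at hy
    rw [Metric.mem_ball] at hz ⊢
    have := dist_triangle y z c
    linarith
  have hzh : z + h ∈ S := by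
    rw [hS, Metric.mem_closedBall, dist_eq_norm]
    simp
  have hzS : z ∈ S := Metric.mem_closedBall_self (norm_nonneg _)
  have key := (convex_closedBall z ‖h‖).norm_image_sub_le_of_norm_hasDerivWithin_le (𝕜 := ℂ)
    (f := fun y => g y - deriv g z * y) (f' := fun y => deriv g y - deriv g z)
    (C := (4 * M / R ^ 2) * ‖h‖) ?_ ?_ hzS hzh
  · have e : g (z + h) - g z - deriv g z * h
        = (g (z + h) - deriv g z * (z + h)) - (g z - deriv g z * z) := by ring
    rw [e]
    refine key.trans (le_of_eq ?_)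
    rw [add_sub_cancel_left]
    ring
  · intro y hy
    have hd : DifferentiableAt ℂ g y := hg.differentiableAt (Metric.isOpen_ball.mem_nhds
      (Metric.ball_subset_ball (by linarith) (hSsub hy)))
    have h3 : HasDerivAt (fun y : ℂ => deriv g z * y) (deriv g z) y := by
      simpa using (hasDerivAt_id y).const_mul (deriv g z)
    exact (HasDerivAt.fun_sub hd.hasDerivAt h3).hasDerivWithinAt
  · intro y hy
    refine (hb1 y (hSsub hy)).trans ?_
    have hM0 : 0 ≤ 4 * M / R ^ 2 := by
      have : 0 ≤ M := (norm_nonneg _).trans (hM c (Metric.mem_ball_self (by linarith)))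
      positivity
    refine mul_le_mul_of_nonneg_left ?_ hM0
    rw [Metric.mem_closedBall, dist_eq_norm] at hy
    exact hy

lemma differentiableOn_D1 (hO : GOsg) (f : ℂ × ℂ → ℂ) (U : Set (ℂ × ℂ)) (hU : IsOpen U)
    (hf : DifferentiableOn ℂ f U) : DifferentiableOn ℂ (D1 f) U := by
  intro p hp
  obtain ⟨ε, hε, hball⟩ := Metric.isOpen_iff.1 hU p hp
  -- compactness gives a bound on a closed ball
  set R : ℝ := ε / 8 with hR
  have hR0 : 0 < R := by positivity
  have hcl : Metric.closedBall p (3 * R) ⊆ U :=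
    (Metric.closedBall_subset_ball (by rw [hR]; linarith)).trans hball
  obtain ⟨M, hM⟩ := (isCompact_closedBall p (3 * R)).exists_bound_of_continuousOn
    (hf.continuousOn.mono hcl)
  -- slices
  have hslice : ∀ w, w ∈ Metric.ball p.2 (3 * R) → ∀ z, z ∈ Metric.ball p.1 (3 * R) →
      (z, w) ∈ Metric.closedBall p (3 * R) := by
    intro w hw z hz
    rw [Metric.mem_ball] at hw hz
    rw [Metric.mem_closedBall, Prod.dist_eq]
    exact max_le hz.le hw.le
  have hsd : ∀ w, w ∈ Metric.ball p.2 (3 * R) →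
      DifferentiableOn ℂ (fun z => f (z, w)) (Metric.ball p.1 (3 * R)) := by
    intro w hw z hz
    have h1 : DifferentiableAt ℂ f (z, w) :=
      hf.differentiableAt (hU.mem_nhds (hcl (hslice w hw z hz)))
    have h2 : DifferentiableAt ℂ (fun z : ℂ => (z, w)) z :=
      differentiableAt_id.prodMk (differentiableAt_const w)
    exact (DifferentiableAt.comp z h1 h2).differentiableWithinAt
  set V : Set (ℂ × ℂ) := Metric.ball p (R / 2) with hV
  have hVo : IsOpen V := Metric.isOpen_ball
  -- the difference quotients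
  obtain ⟨N, hN⟩ := exists_nat_gt (2 / R)
  have hNpos : (0:ℝ) < N := lt_trans (by positivity) hN
  have hsmall : ∀ n : ℕ, ‖(1 : ℂ) / ((n + N : ℕ) : ℂ)‖ < R / 2 := by
    intro n
    rw [norm_div, norm_one, Complex.norm_natCast]
    have h3 : (2 / R) < ((n + N : ℕ) : ℝ) := by
      push_cast
      have : (0:ℝ) ≤ n := Nat.cast_nonneg n
      linarith
    have h4 : (0:ℝ) < ((n + N : ℕ) : ℝ) := lt_trans (by positivity) h3
    rw [div_lt_iff₀ hR0] at h3
    rw [div_lt_div_iff₀ h4 (by norm_num)]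
    linarith
  have hpos : ∀ n : ℕ, (0:ℝ) < ((n + N : ℕ) : ℝ) := by
    intro n
    push_cast
    have : (0:ℝ) ≤ n := Nat.cast_nonneg n
    linarith
  set F : ℕ → ℂ × ℂ → ℂ := fun n q =>
    ((n + N : ℕ) : ℂ) * (f (q.1 + 1 / ((n + N : ℕ) : ℂ), q.2) - f q) with hF
  have hVU : V ⊆ U := fun q hq => hcl (Metric.closedBall_subset_closedBall (by linarith)
    (Metric.ball_subset_closedBall hq))
  have hFd : ∀ n, DifferentiableOn ℂ (F n) V := by
    intro n q hq
    have hq' := hq
    rw [hV, Metric.mem_ball, Prod.dist_eq, max_lt_iff] at hq'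
    have hsh : (q.1 + 1 / ((n + N : ℕ) : ℂ), q.2) ∈ U := by
      refine hcl (hslice _ ?_ _ ?_)
      · rw [Metric.mem_ball]; linarith [hq'.2]
      · rw [Metric.mem_ball]
        have h1 : dist (q.1 + 1 / ((n + N : ℕ) : ℂ)) q.1 < R / 2 := by
          rw [dist_eq_norm, add_sub_cancel_left]; exact hsmall n
        have h2 := dist_triangle (q.1 + 1 / ((n + N : ℕ) : ℂ)) q.1 p.1
        linarith [hq'.1]
    have h1 : DifferentiableAt ℂ f (q.1 + 1 / ((n + N : ℕ) : ℂ), q.2) :=
      hf.differentiableAt (hU.mem_nhds hsh)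
    have h2 : DifferentiableAt ℂ (fun q : ℂ × ℂ => (q.1 + 1 / ((n + N : ℕ) : ℂ), q.2)) q :=
      (differentiableAt_fst.add_const _).prodMk differentiableAt_snd
    have h3 : DifferentiableAt ℂ
        (fun q : ℂ × ℂ => f (q.1 + 1 / ((n + N : ℕ) : ℂ), q.2)) q :=
      DifferentiableAt.comp q h1 h2
    have h4 : DifferentiableAt ℂ f q := hf.differentiableAt (hU.mem_nhds (hVU hq))
    exact ((h3.sub h4).const_mul _).differentiableWithinAt
  have hlim : TendstoUniformlyOn F (D1 f) atTop V := by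
    rw [Metric.tendstoUniformlyOn_iff]
    intro δ hδ
    have hb : ∀ n : ℕ, ∀ q ∈ V, dist (D1 f q) (F n q)
        ≤ (4 * M / R ^ 2) / ((n + N : ℕ) : ℝ) := by
      intro n q hq
      have hq' := hq
      rw [hV, Metric.mem_ball, Prod.dist_eq, max_lt_iff] at hq'
      have hq2 : q.2 ∈ Metric.ball p.2 (3 * R) := by
        rw [Metric.mem_ball]; linarith [hq'.2]
      have hk := quot_bound hR0 (hsd q.2 hq2)
        (fun z hz => hM _ (hslice q.2 hq2 z hz)) q.1 (by rw [Metric.mem_ball]; exact hq'.1)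
        (1 / ((n + N : ℕ) : ℂ)) (hsmall n)
      have hne : ((n + N : ℕ) : ℂ) ≠ 0 := by
        have := (hpos n).ne'
        exact_mod_cast this
      have e : D1 f q - F n q = - (((n + N : ℕ) : ℂ) *
          (f (q.1 + 1 / ((n + N : ℕ) : ℂ), q.2) - f (q.1, q.2)
            - deriv (fun z => f (z, q.2)) q.1 * (1 / ((n + N : ℕ) : ℂ)))) := by
        simp only [hF, D1]
        field_simp
        ring
      rw [dist_eq_norm, e, norm_neg, norm_mul, Complex.norm_natCast]
      refine (mul_le_mul_of_nonneg_left hk (hpos n).le).trans (le_of_eq ?_)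
      rw [norm_div, norm_one, Complex.norm_natCast]
      have := (hpos n).ne'
      field_simp
    have ht : Tendsto (fun n : ℕ => (4 * M / R ^ 2) / ((n + N : ℕ) : ℝ)) atTop (𝓝 0) := by
      refine Tendsto.div_atTop tendsto_const_nhds ?_
      exact tendsto_natCast_atTop_atTop.comp (tendsto_add_atTop_nat N)
    filter_upwards [ht.eventually (gt_mem_nhds hδ)] with n hn q hq
    exact lt_of_le_of_lt (hb n q hq) hn
  have hfin := hO.2 F (D1 f) V hVo hFd hlim
  exact (hfin.differentiableAt (hVo.mem_nhds (Metric.mem_ball_self (by positivity)))).differentiableWithinAt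

lemma D2_eq_swap (f : ℂ × ℂ → ℂ) : D2 f = (D1 (f ∘ Prod.swap)) ∘ Prod.swap := by
  funext p
  simp [D1, D2, Function.comp_def]

lemma differentiable_swap : Differentiable ℂ (Prod.swap : ℂ × ℂ → ℂ × ℂ) :=
  differentiable_snd.prodMk differentiable_fst

lemma differentiableOn_D2 (hO : GOsg) (f : ℂ × ℂ → ℂ) (U : Set (ℂ × ℂ)) (hU : IsOpen U)
    (hf : DifferentiableOn ℂ f U) : DifferentiableOn ℂ (D2 f) U := by
  rw [D2_eq_swap]
  have hU' : IsOpen (Prod.swap ⁻¹' U : Set (ℂ × ℂ)) := hU.preimage continuous_swap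
  have h1 : DifferentiableOn ℂ (f ∘ Prod.swap) (Prod.swap ⁻¹' U) :=
    hf.comp differentiable_swap.differentiableOn (fun q hq => hq)
  have h2 := differentiableOn_D1 hO _ _ hU' h1
  refine h2.comp differentiable_swap.differentiableOn ?_
  intro q hq
  simpa using hq

lemma hasFDerivAt_D12 (f : ℂ × ℂ → ℂ) (p : ℂ × ℂ) (hf : DifferentiableAt ℂ f p) :
    HasFDerivAt f
      (D1 f p • ContinuousLinearMap.fst ℂ ℂ ℂ + D2 f p • ContinuousLinearMap.snd ℂ ℂ ℂ) p := by
  have hL := hf.hasFDerivAt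
  have h1 : D1 f p = fderiv ℂ f p (1, 0) := by
    have hc : HasDerivAt (fun z : ℂ => (z, p.2)) ((1 : ℂ), (0 : ℂ)) p.1 :=
      (hasDerivAt_id p.1).prodMk (hasDerivAt_const p.1 p.2)
    have := HasFDerivAt.comp_hasDerivAt (x := p.1) (f := fun z : ℂ => (z, p.2)) (l := f)
      (l' := fderiv ℂ f p) hL hc
    exact this.deriv
  have h2 : D2 f p = fderiv ℂ f p (0, 1) := by
    have hc : HasDerivAt (fun z : ℂ => (p.1, z)) ((0 : ℂ), (1 : ℂ)) p.2 :=
      (hasDerivAt_const p.2 p.1).prodMk (hasDerivAt_id p.2)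
    have := HasFDerivAt.comp_hasDerivAt (x := p.2) (f := fun z : ℂ => (p.1, z)) (l := f)
      (l' := fderiv ℂ f p) hL hc
    exact this.deriv
  have e : D1 f p • ContinuousLinearMap.fst ℂ ℂ ℂ + D2 f p • ContinuousLinearMap.snd ℂ ℂ ℂ
      = fderiv ℂ f p := by
    ext
    · simp [h1]
    · simp [h2]
  rw [e]
  exact hL

theorem gD12 (hO : GOsg) : GD12 := by
  intro f U hU hf
  have hd1 := differentiableOn_D1 hO f U hU hf
  have hd2 := differentiableOn_D2 hO f U hU hf
  refine ⟨hd1, hd2, ?_, ?_⟩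
  · intro p hp
    have hev : ∀ᶠ y in 𝓝 p, HasFDerivAt f
        (D1 f y • ContinuousLinearMap.fst ℂ ℂ ℂ + D2 f y • ContinuousLinearMap.snd ℂ ℂ ℂ) y := by
      filter_upwards [hU.mem_nhds hp] with y hy
      exact hasFDerivAt_D12 f y (hf.differentiableAt (hU.mem_nhds hy))
    have ha : HasFDerivAt (D1 f) (fderiv ℂ (D1 f) p) p :=
      (hd1.differentiableAt (hU.mem_nhds hp)).hasFDerivAt
    have hb : HasFDerivAt (D2 f) (fderiv ℂ (D2 f) p) p :=
      (hd2.differentiableAt (hU.mem_nhds hp)).hasFDerivAt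
    have ha' := ha.smul_const (ContinuousLinearMap.fst ℂ ℂ ℂ)
    have hb' := hb.smul_const (ContinuousLinearMap.snd ℂ ℂ ℂ)
    have hs := second_derivative_symmetric_of_eventually hev (ha'.add hb') (1, 0) (0, 1)
    have e1 : D1 (D2 f) p = fderiv ℂ (D2 f) p (1, 0) := by
      have := hasFDerivAt_D12 (D2 f) p (hd2.differentiableAt (hU.mem_nhds hp))
      rw [this.fderiv]
      simp
    have e2 : D2 (D1 f) p = fderiv ℂ (D1 f) p (0, 1) := by
      have := hasFDerivAt_D12 (D1 f) p (hd1.differentiableAt (hU.mem_nhds hp))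
      rw [this.fderiv]
      simp
    rw [e1, e2]
    simpa using hs
  · intro p hp
    exact hasFDerivAt_D12 f p (hf.differentiableAt (hU.mem_nhds hp))

end Pool.Agent.Helper27.TW
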