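import Pool.Agent.Helper70.TW.Goals

/-!
# Project TW (MP_c7dfba_nt), part TW, packet TWF

The version of the twisted Tsen-Lang property for a field `L = K(I)`, `I² = -1`, with conjugation.
-/

namespace Pool.Agent.Helper27.TW

universe u v

open MvPolynomial Pool.Agent.Helper70.BU Pool.Agent.Helper70.TW

/-- The ring homomorphism `x + y i ↦ x + y I`. -/
noncomputable def theta {K L : Type u} [Field K] [Field L] [Algebra K L] (I : L)
    (hI : I ^ 2 = -1) : GF K →+* L where
  toFun x := algebraMap K L x.re + algebraMap K L x.im * I
  map_one' := by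
    show algebraMap K L (1 : GF K).re + algebraMap K L (1 : GF K).im * I = 1
    rw [QuadraticAlgebra.re_one, QuadraticAlgebra.im_one, map_one, map_zero, zero_mul, add_zero]
  map_zero' := by simp
  map_add' x y := by
    simp only [QuadraticAlgebra.re_add, QuadraticAlgebra.im_add, map_add]
    ring
  map_mul' x y := by
    simp only [QuadraticAlgebra.re_mul, QuadraticAlgebra.im_mul, map_add, map_mul, map_neg,
      map_one, map_zero]
    linear_combination (-(algebraMap K L x.im * algebraMap K L y.im)) * hI

theorem twf : TWF.{u} := by
  intro K L _ _ _ σ I h2 hI hσ hsurj j hT ι κ Λ _ _ _ _ _ b α β f hne hM hlt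
  set θ : GF K →+* L := theta I hI with hθ
  have hθv : ∀ x : GF K, θ x = algebraMap K L x.re + algebraMap K L x.im * I := fun x => rfl
  have h2L : (2 : L) ≠ 0 := by
    intro h
    apply h2
    apply (algebraMap K L).injective
    rw [map_zero, map_ofNat]
    exact h
  have hI0 : I ≠ 0 := by
    intro h
    rw [h] at hI
    have h1 : (1 : L) = 0 := by linear_combination hI
    exact one_ne_zero h1
  have hstar : ∀ x : GF K, θ (star x) = σ (θ x) := by
    intro x
    rw [hθv, hθv, map_add, map_mul, AlgHom.commutes, AlgHom.commutes, hσ]
    simp only [QuadraticAlgebra.re_star, QuadraticAlgebra.im_star, zero_mul, add_zero, map_neg]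
    ring
  have hinj : Function.Injective θ := by
    rw [injective_iff_map_eq_zero]
    intro x hx
    have h1 : algebraMap K L x.re + algebraMap K L x.im * I = 0 := by rw [← hθv]; exact hx
    have h3 : algebraMap K L x.re - algebraMap K L x.im * I = 0 := by
      have := congrArg σ h1
      rw [map_add, map_mul, AlgHom.commutes, AlgHom.commutes, hσ, map_zero] at this
      linear_combination this
    have ha : algebraMap K L x.re = 0 := by
      have : 2 * algebraMap K L x.re = 0 := by linear_combination h1 + h3
      exact (mul_eq_zero.1 this).resolve_left h2L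
    have hb : algebraMap K L x.im = 0 := by
      have : 2 * (algebraMap K L x.im * I) = 0 := by linear_combination h1 - h3
      exact (mul_eq_zero.1 ((mul_eq_zero.1 this).resolve_left h2L)).resolve_right hI0
    have ha' : x.re = 0 := (algebraMap K L).injective (by rw [ha, map_zero])
    have hb' : x.im = 0 := (algebraMap K L).injective (by rw [hb, map_zero])
    exact QuadraticAlgebra.ext ha' hb'
  have hsur : Function.Surjective θ := by
    intro x
    obtain ⟨a, c, h⟩ := hsurj x
    exact ⟨⟨a, c⟩, h.symm⟩
  let e : GF K ≃+* L := RingEquiv.ofBijective θ ⟨hinj, hsur⟩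
  have he : ∀ x, e x = θ x := fun x => rfl
  have hcomp : θ.comp (e.symm : L →+* GF K) = RingHom.id L := by
    ext x
    show θ (e.symm x) = x
    rw [← he, RingEquiv.apply_symm_apply]
  obtain ⟨z, hz1, hz2⟩ := hT ι κ Λ b α β hne hlt (fun l => map (e.symm : L →+* GF K) (f l))
    (fun l d hd => hM l d (support_map_subset _ _ hd))
  refine ⟨fun i => θ (z i), ?_, ?_⟩
  · intro k
    obtain ⟨i, hi, hzi⟩ := hz1 k
    refine ⟨i, hi, fun h => hzi ?_⟩
    have h' : θ (z i) = 0 := h
    exact hinj (by rw [h', map_zero])
  · intro l
    have h := congrArg θ (hz2 l)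
    rw [map_zero] at h
    unfold evs at h
    have h1 : ∀ (v : ι ⊕ ι → GF K) (p : MvPolynomial (ι ⊕ ι) (GF K)),
        θ (eval v p) = eval (θ ∘ v) (map θ p) := by
      intro v p
      have h4 := eval₂_comp_left θ (RingHom.id _) v p
      rw [RingHom.comp_id] at h4
      rw [eval_map]
      exact h4
    rw [h1, map_map, hcomp, map_id] at h
    have h3 : (θ ∘ Sum.elim z fun i => star (z i)) =
        Sum.elim (fun i => θ (z i)) fun i => σ (θ (z i)) := by
      funext s
      rcases s with i | i
      · rfl
      · exact hstar (z i)
    rw [h3] at h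
    exact h

end Pool.Agent.Helper27.TW
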